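import Mathlib
import Pool.Agent.N906.SZ.Stm

/-!
# Project FH (helper906): MP_6babc4_nt and MP_c59389_nt (Frey: Faltings height against conductor)

Targets. All elliptic curves `E` over `ℚ`, minimal models `y² = x³ - a x - b` with `|a| ≤ X²`, `|b| ≤ X³`, and a slope
`1/12 < κ < 1/10`; `σ = 12 κ`, `lam = 1 - 1/σ` (`0 < lam < 1/6`). The number of the violators of
`h_F(E) ≤ κ log N_E + c` is

  `X ^ (5 - 6 lam) * exp ((√(48 μ lam) + o(1)) √(log X / log log X))`,    `5 - 6 lam = 6/σ - 1`,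

with `μ = 2` for the (unstable) Faltings height over `ℚ` (MP_6babc4_nt) and `μ = 1` for the stable
Faltings height (MP_c59389_nt). Frey's inequality is the case `κ > 1/2`.

The violators satisfy `N₆ ≤ K max(|a|³, |D|)^(1 - lam)`. The method is the one of project SZ; the new point is
that `|D|` may be much smaller than `|a|³`, that is, `E` may be near the cusp. For the stable height the
additive reduction does not contribute to the height, which halves the constant `μ`.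
-/

set_option autoImplicit false

namespace Pool.Agent.N906.FH

open Finset Filter Topology Pool.Agent.N906.SZ

/-! ### Definitions -/

/-- `max (|a|³, |D|)` -/
noncomputable def Mx (a b : ℤ) : ℝ := max (|(a : ℝ)| ^ 3) |((Dd a b : ℤ) : ℝ)|

/-- the region: `max (|a|³, |D|)` about `X⁶`, `|D| ≤ Y` -/
def Rg (X Y : ℝ) (a b : ℤ) : Prop :=
  |(a : ℝ)| ≤ X ^ 2 ∧ |(b : ℝ)| ≤ X ^ 3 ∧ X ^ 6 ≤ 64 * Mx a b ∧ |((Dd a b : ℤ) : ℝ)| ≤ Y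

/-- the local conditions for the stable height: for `p ≥ 5`, `g = v_p(n) ≥ 1`, either `p ∤ a` and
`p ^ (g + 1) ∣ D`, or `p ∣ a` and `p ^ (g + 7) ∣ D` -/
def Cs (n : ℕ) (a b : ℤ) : Prop :=
  ∀ p ∈ n.primeFactors,
    (p < 5 → (p : ℤ) ^ n.factorization p ∣ Dd a b) ∧
    (5 ≤ p → (¬ (p : ℤ) ∣ a ∧ (p : ℤ) ^ (n.factorization p + 1) ∣ Dd a b) ∨
      ((p : ℤ) ∣ a ∧ (p : ℤ) ^ (n.factorization p + 7) ∣ Dd a b))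

/-- the elliptic curve `y² = x³ - a x - b` over `ℚ` -/
def Ec (a b : ℤ) : WeierstrassCurve ℚ := ⟨0, 0, 0, -(a : ℚ), -(b : ℚ)⟩

/-- the absolute value of the minimal discriminant of an elliptic curve `W` over `ℚ` -/
noncomputable def minDisc (W : WeierstrassCurve ℚ) : ℕ :=
  sInf {n : ℕ | ∃ (V : WeierstrassCurve ℤ) (C : WeierstrassCurve.VariableChange ℚ),
    C • W = V.map (Int.castRingHom ℚ) ∧ n = V.Δ.natAbs}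

/-- the modular invariant -/
noncomputable def jInv (τ : UpperHalfPlane) : ℂ :=
  ModularForm.E₄ τ ^ 3 / ModularForm.discriminant τ

/-- the archimedean term of the Faltings height -/
noncomputable def arch (τ : UpperHalfPlane) : ℝ :=
  -Real.log (‖ModularForm.discriminant τ‖ * τ.im ^ 6)

/-- the invariant of the curve -/
noncomputable def jE (a b : ℤ) : ℚ := (Ec a b).c₄ ^ 3 / (Ec a b).Δ

/-- `τ` has the invariant of the curve -/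
def IsPer (a b : ℤ) (τ : UpperHalfPlane) : Prop := jInv τ = ((jE a b : ℚ) : ℂ)

/-! ### Generic statements. `P n a b`: a local condition; `w`: weights; `μ`: constant -/

/-- CNTg. Number of the curves with the condition `P n` in the region. -/
def S_CNTg (P : ℕ → ℤ → ℤ → Prop) (w : ℕ → ℝ) : Prop := ∃ C : ℝ, 0 < C ∧ ∀ (X Y : ℝ) (n : ℕ),
  1 ≤ X → 1 ≤ Y → 1 ≤ n → ((n * rd n : ℕ) : ℝ) ≤ X ^ 2 →
  ∀ F : Finset (ℤ × ℤ), (∀ x ∈ F, Mn x.1 x.2 ∧ Rg X Y x.1 x.2 ∧ P n x.1 x.2) →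
    (F.card : ℝ) ≤ C * w n * (Y / (X * (n * rd n : ℕ)) + X ^ 2)

/-- GENg. For `w = cc`, `μ = 2` this is `S_GENU` of project SZ. -/
def S_GENg (w : ℕ → ℝ) (μ : ℝ) : Prop := ∀ ε : ℝ, 0 < ε → ∃ u₀ : ℝ, 0 < u₀ ∧ u₀ < 1 / 2 ∧
  ∀ u : ℝ, 0 < u → u < u₀ → ∀ F : Finset ℕ, (∀ n ∈ F, 1 ≤ n) →
    ∑ n ∈ F, w n * (n : ℝ) ^ (-u) / rd n ≤ Real.exp ((1 + ε) * μ / (u * Real.log (1 / u)))

/-- UPAg. The curves with a divisor `n`, `T ≤ n ≤ R`. -/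
def S_UPAg (P : ℕ → ℤ → ℤ → Prop) (μ : ℝ) : Prop := ∀ lam K ε : ℝ, 0 < lam → lam < 1 / 6 → 1 ≤ K →
  0 < ε → ∃ X₀ : ℝ, 3 < X₀ ∧ ∀ (X Y T R : ℝ) (F : Finset (ℤ × ℤ)), X₀ ≤ X → 1 ≤ Y → 1 ≤ T →
    T ≤ K * X ^ (6 * lam) → Y ≤ K * T * X ^ (6 - 6 * lam) → R ≤ X →
    (∀ x ∈ F, Mn x.1 x.2 ∧ Rg X Y x.1 x.2 ∧ ∃ n : ℕ, 1 ≤ n ∧ T ≤ n ∧ (n : ℝ) ≤ R ∧ P n x.1 x.2) →
    (F.card : ℝ) ≤ Real.exp ((5 - 6 * lam) * Real.log X +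
      (1 + ε) * √(48 * μ * lam * Real.log X / Real.log (Real.log X)))

/-- UPg. The upper bound. -/
def S_UPg (P : ℕ → ℤ → ℤ → Prop) (μ : ℝ) : Prop := ∀ lam K ε : ℝ, 0 < lam → lam < 1 / 6 → 1 ≤ K →
  0 < ε → ∃ X₀ : ℝ, 3 < X₀ ∧ ∀ (X : ℝ) (F : Finset (ℤ × ℤ)), X₀ ≤ X →
    (∀ x ∈ F, Mn x.1 x.2 ∧ |(x.1 : ℝ)| ≤ X ^ 2 ∧ |(x.2 : ℝ)| ≤ X ^ 3 ∧
      ∃ n : ℕ, 1 ≤ n ∧ P n x.1 x.2 ∧
        |((Dd x.1 x.2 : ℤ) : ℝ)| ≤ K * n * Mx x.1 x.2 ^ (1 - lam)) →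
    (F.card : ℝ) ≤ Real.exp ((5 - 6 * lam) * Real.log X +
      (1 + ε) * √(48 * μ * lam * Real.log X / Real.log (Real.log X)))

/-! ### Counting -/

/-- REG2. For a pair of classes modulo `M ≤ X²` (there are `ρ` of them): (1) `|D| ≥ X⁶/64`: `Y ≥ X⁶/64`, and at most
`(2X²/M + 1)(2X³/M + 1) ≤ 9 X⁵/M²` pairs. (2) `|a|³ ≥ X⁶/64`, `|a| ≥ X²/4`: at most `2X²/M + 1 ≤ 3X²/M` numbers `a`. If
`Y ≥ X⁶/100` then at most `2X³/M + 1 ≤ C (Y/(X³M) + 1)` numbers `b`. If `Y < X⁶/100` then `a > 0` (otherwise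
`|D| ≥ 4|a|³`), `b²` is in an interval of length `2Y/27`, `b² ≥ c X⁶`, so `|b|` is in an interval of length
`C Y/X³`: at most `2 (C Y/(X³M) + 1)` numbers `b`. Compare `Pool.Agent.N487.SZ.reg`. -/
def S_REG2 : Prop := ∃ C : ℝ, 0 < C ∧ ∀ (X Y : ℝ) (M : ℕ) (ρ : ℝ) (Q : ℤ → ℤ → Prop), 1 ≤ X → 1 ≤ Y →
  1 ≤ M → (M : ℝ) ≤ X ^ 2 → (∀ a b, Q (a + M) b ↔ Q a b) → (∀ a b, Q a (b + M) ↔ Q a b) →
  (∀ F : Finset (ℤ × ℤ), (∀ x ∈ F, 0 ≤ x.1 ∧ x.1 < M ∧ 0 ≤ x.2 ∧ x.2 < M ∧ Q x.1 x.2) →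
    (F.card : ℝ) ≤ ρ) →
  ∀ F : Finset (ℤ × ℤ), (∀ x ∈ F, Rg X Y x.1 x.2 ∧ Q x.1 x.2) →
    (F.card : ℝ) ≤ C * ρ * (Y / (X * (M : ℝ) ^ 2) + X ^ 2 / M)

/-- DENS3 (local densities for `Cs`). Modulo `M = n * rd n`; `Q` is the conjunction of the local conditions
`Q_p`, `p ∣ n`, `g = v_p(n)`, on `(a, b)` modulo `p ^ (g + 1)` (`p ^ g` for `p = 2, 3`). For `p = 2, 3`: as in `S_DENS` of
project SZ, at most `p^14 p^g` pairs. For `p ≥ 5`: [`p ∤ a` and `p^(g+1) ∣ D`]: at most `p^(g+1)` pairs (`a = 3t²`, `b = 2t³`);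
or [`a ≡ 0`, `b ≡ 0` modulo `p²` if `g = 1`; `p² ∣ a`, `p³ ∣ b` and `p^(g-2) ∣ Dd (a/p²) (b/p³)`, and not both
`p³ ∣ a` and `p⁴ ∣ b`, if `g ≥ 2`, the last condition only for `g ≥ 4`] (well defined modulo `p^(g+1)`; `p ∣ a`,
`p^(g+7) ∣ D` and minimality imply this: `v(D) ≥ 8` forces `v(a) ≥ 2`, `v(b) ≥ 3`, and `v(D) ≥ 11` forces
`v(a) = 2`, `v(b) = 3`): at most `2 p^(g-1)` pairs modulo `p^(g+1)` (for `g ≥ 4`: `a/p²` modulo `p^(g-1)` and `b/p³` modulo `p^(g-2)`,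
`a/p²` a unit). So the number is at most `∏ p^(g+1) (1 + 2/p²)` times a constant. -/
def S_DENS3 : Prop := ∃ C : ℝ, 0 < C ∧ ∀ n : ℕ, 1 ≤ n → ∃ Q : ℤ → ℤ → Prop,
  (∀ a b, Q (a + (n * rd n : ℕ)) b ↔ Q a b) ∧ (∀ a b, Q a (b + (n * rd n : ℕ)) ↔ Q a b) ∧
  (∀ a b, Mn a b → Cs n a b → Q a b) ∧
  ∀ F : Finset (ℤ × ℤ), (∀ x ∈ F, 0 ≤ x.1 ∧ x.1 < (n * rd n : ℕ) ∧ 0 ≤ x.2 ∧ x.2 < (n * rd n : ℕ) ∧
    Q x.1 x.2) → (F.card : ℝ) ≤ C * (n * rd n : ℕ)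

/-- CNT2. From `S_DENS` and REG2. -/
def S_CNT2 : Prop := S_CNTg Cn (fun n => (cc n : ℝ))

/-- CNT3. From DENS3 and REG2. -/
def S_CNT3 : Prop := S_CNTg Cs (fun _ => 1)

/-- GEN1. From `S_GUPQ` (`μ = 1`, `θ = 0`); the powers of 2 and 3 give a factor `(C/u)²`. -/
def S_GEN1 : Prop := S_GENg (fun _ => 1) 1

/-- PERA2. As `S_PERA` of project SZ (`Pool.Agent.N945.SZ.pera`): for given shapes `A ∣ a`, `b` in at most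
`2^ω` classes modulo `K'` (depending on `a`), `A K' ≥ n * rd n`; the number of the `a` is at most `2 X²/A`, and for each `a`
the number of the `b` is at most `2^ω C (Y/(X³K') + 1)`, by the cases (1), (2) of REG2. -/
def S_PERA2 : Prop := ∃ C : ℝ, 0 < C ∧ ∀ (X Y : ℝ) (n : ℕ), 1 ≤ X → 1 ≤ Y → 1 ≤ n → n.Coprime 6 →
  ∀ F : Finset (ℤ × ℤ), (∀ x ∈ F, x.1 ≠ 0 ∧ Mn x.1 x.2 ∧ Rg X Y x.1 x.2 ∧ Cn n x.1 x.2) →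
    (F.card : ℝ) ≤ C * 6 ^ n.primeFactors.card * (Y / (X * (n * rd n : ℕ)) + X ^ 2)

/-! ### The upper bound -/

/-- UPAG (Rankin), compare `Pool.Agent.N50.SZ.upa`. The number is at most
`∑_{T ≤ n ≤ R} C w n (Y/(X n rd n) + X²)` (`n rd n ≤ n² ≤ X²`); the second terms give `≤ C_δ X^(3+δ)`, `5 - 6 lam > 4`; the first
`≤ C (Y/X) T^(-1+u) ∑ w n n^(-u) / rd n ≤ C K X^(5-6lam) T^u exp ((1+ε') μ / (u log(1/u)))`, `T^u ≤ exp (u (6 lam log X + C))`. -/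
def S_UPAG : Prop := ∀ (P : ℕ → ℤ → ℤ → Prop) (w : ℕ → ℝ) (μ : ℝ), 0 < μ → (∀ n, 0 ≤ w n) →
  (∀ δ : ℝ, 0 < δ → ∃ C : ℝ, ∀ n : ℕ, 1 ≤ n → w n ≤ C * (n : ℝ) ^ δ) →
  S_CNTg P w → S_GENg w μ → S_UPAg P μ

/-- UPB2 (large primes), from PERA2, `S_LP` and `S_GENU`; compare `Pool.Agent.N92.SZ.upb`. (1) `n ≤ T²`: by PERA2
the first terms give `≤ X^δ (Y/X) (T X^η)^(-1+δ)`, the second ones `X² T^(2+δ)`, `2 + 12 lam < 5 - 6 lam`. (2) `n > T²`: `n = p` is a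
prime; `p ≤ P₀ = X^(3 - 6 lam - η')`: PERA2 again. (3) `n = p > P₀`: `p² ∣ D`, and `S_LP` gives
`C X^(8+ε) / P₀² = C X^(2 + 12 lam + 2 η' + ε)`. -/
def S_UPB2 : Prop := ∀ lam K η : ℝ, 0 < lam → lam < 1 / 6 → 1 ≤ K → 0 < η → ∃ X₀ : ℝ, 3 < X₀ ∧
  ∀ (X Y T : ℝ) (F : Finset (ℤ × ℤ)), X₀ ≤ X → 1 ≤ Y → 1 ≤ T → T ≤ K * X ^ (6 * lam) →
    Y ≤ K * T * X ^ (6 - 6 * lam) →
    (∀ x ∈ F, x.1 ≠ 0 ∧ Mn x.1 x.2 ∧ Rg X Y x.1 x.2 ∧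
      ∃ n : ℕ, T * X ^ η < n ∧ n.Coprime 6 ∧ (∀ p ∈ n.primeFactors, (n : ℝ) / p < T) ∧
        Cn n x.1 x.2) →
    (F.card : ℝ) ≤ X ^ (5 - 6 * lam)

/-- UPG (assembly), compare `Pool.Agent.N92.SZ.up`. Let `A = 2X/2^k` with `A⁶/64 < Mx ≤ A⁶` (`1 ≤ Mx ≤ 31 X⁶`), so
`|a| ≤ A²`, `27 b² ≤ 5 Mx`, `|b| ≤ A³`. If `A ≤ √X`: at most `9 A⁵` pairs. `Y/2 < |D| ≤ Y`, `Y = A⁶/2^j` (`≥ 1`), and
`T = (Y/2) / (K A^(6 - 6 lam)) ≤ n₀` with the `n₀` of the hypothesis; `T ≤ A^(6 lam)`, `Y = 2 K T A^(6-6lam)`. If `T < 1`: CNTg with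
`n = 1` (`P 1` holds) gives `C (Y/A + A²)`. If `T ≥ 1`: the least divisor `n ≥ T` of `n₀` satisfies `P n` and `n/p < T` for
`p ∣ n`; if `n ≤ T A^η`: UPAg with `R = T A^η ≤ A`; if `n > T A^η` all the primes `p ∣ n` are `> A^η`, so `n` is
coprime to 6, and UPB2 applies (`P n` implies `Cn n`) for `a ≠ 0`; at most `2A³ + 1` pairs have `a = 0`. The number of
pairs `(A, Y)` is `O(log² X)`, absorbed by `ε`. -/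
def S_UPG : Prop := ∀ (P : ℕ → ℤ → ℤ → Prop) (w : ℕ → ℝ) (μ : ℝ), 0 < μ → (∀ n, 0 ≤ w n) →
  (∀ n m a b, 1 ≤ m → n ∣ m → P m a b → P n a b) → (∀ n a b, Mn a b → P n a b → Cn n a b) →
  S_CNTg P w → S_UPAg P μ → S_UPg P μ

/-- GAIN3 (stable height). `jE a b = 6912 a³ / D`. Write `|D| = D₂₃ D_m D_a` (the parts at `2, 3`; at the `p ≥ 5`
not dividing `a`; dividing `a`), `N₆ = N_m q²`, `q = ∏_{p ≥ 5, p ∣ a, p ∣ D} p`. Take `n = D₂₃ (D_m / N_m) ∏ p^(k-1)`, the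
product over the `p ≥ 5` with `v(a) = 2`, `v(b) = 3`, `v(D) = 6 + k`, `k ≥ 2`. The denominator of `jE` is at most
`D₂₃ D_m S_a`, `S_a = ∏ p^k` over the same primes with `k ≥ 1` (for the other `p ∣ a`: `v(D) ≤ 3 v(a)`, `v(D) ≤ 10`). Then
`|D| / (D₂₃ D_m / N_m) = N_m D_a ≤ (D_a / q²) K (D₂₃ D_m S_a max(1, |6912 a³/D|))^(1-lam) ≤ K' Mx^(1-lam) D_a^lam S_a^(1-lam) / q²`,
and for each `p` the factor `p^(lam v(D) + (1-lam) k - 2)` is `≤ p^(10/6 - 2) ≤ 1` (no pole) or `p^(k - 2 + 6 lam) ≤ p^(k-1)`. -/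
def S_GAIN3 : Prop := ∀ lam K : ℝ, 0 < lam → lam < 1 / 6 → 1 ≤ K → ∃ K' : ℝ, 1 ≤ K' ∧ ∀ a b : ℤ,
  Mn a b → (Nc a b : ℝ) ≤ K * (((jE a b).den : ℝ) * max 1 |((jE a b : ℚ) : ℝ)|) ^ (1 - lam) →
  ∃ n : ℕ, 1 ≤ n ∧ Cs n a b ∧ |((Dd a b : ℤ) : ℝ)| ≤ K' * n * Mx a b ^ (1 - lam)

/-! ### The lower bound for the stable height -/

/-- LOW3 (many curves with given `q`). As `S_LOWQ` of project SZ (`Pool.Agent.N56.SZ.lowq`) with `r = 1`, but also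
the pairs with `p ∣ a`, `p ∣ b` for some prime `p ≥ C₀` are removed. `m = 5^(j+1) q (rd q)`, `(a, b) ≡ (3t², 2t³)` modulo `m`,
`a ≡ 1` modulo 6: at least `φ(m) X⁵ / (6m²)` pairs. Remove (R1) `m p ∣ D` for some `p ∣ q`: `9 φ(m) X⁵ / (m² p)`;
(R2) for the primes `z < p ≤ P` not dividing `q`: `p ∤ a`, `p² ∣ D`: `9 φ(m) X⁵ / (m² p²)`; (R3) for the primes `p ≥ C₀` not
dividing `m`: `p ∣ a`, `p ∣ b`: `9 φ(m) X⁵ / (m² p²)` if `m p ≤ X²`; if `m p > X²` at most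
`(2X²/p + 1)(2X³/p + 1) ≤ 9 X⁵ / p²` for each `p ≤ X²` (`a ≠ 0`), in total `9 · 2 X⁵ m / X²`, small compared with
`X⁵ / m` as `m² ≤ c X²`; (R4) for the primes `5 ≤ p < C₀` not dividing `m`: `p⁴ ∣ a`, `p⁶ ∣ b`: `9 φ(m) X⁵ / (m² p^10)`, with
`∑_{p ≥ 5} 9 · 6 / p^10 < 1/4`; (R5) `D = 0`. -/
def S_LOW3 : Prop := ∃ c₁ c C₀ : ℝ, 0 < c₁ ∧ 0 < c ∧ 5 < C₀ ∧ ∀ (X z P : ℝ) (j q : ℕ),
  1 ≤ q → C₀ ≤ z → z ≤ P → (∀ p ∈ q.primeFactors, z < (p : ℝ) ∧ (p : ℝ) ≤ P) →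
  ∑ p ∈ q.primeFactors, (1 : ℝ) / p ≤ c₁ → C₀ * ((5 : ℝ) ^ j * q * rd q) * P ^ 2 ≤ X →
  ∃ F : Finset (ℤ × ℤ),
    (∀ x ∈ F, Mn x.1 x.2 ∧ |(x.1 : ℝ)| ≤ X ^ 2 ∧ |(x.2 : ℝ)| ≤ X ^ 3 ∧ x.1 % 6 = 1 ∧
      (∀ p : ℕ, p.Prime → C₀ ≤ (p : ℝ) → (p : ℤ) ∣ x.1 → ¬ (p : ℤ) ∣ x.2) ∧
      Cn (5 ^ j * q) x.1 x.2 ∧
      ∀ p : ℕ, p.Prime → z < (p : ℝ) → (p : ℝ) ≤ P →
        (¬ (p : ℤ) ∣ x.1 → (Dd x.1 x.2).natAbs.factorization p - 1 = q.factorization p) ∧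
        ((p : ℤ) ∣ x.1 → q.factorization p = 0)) ∧
    c * X ^ 5 / ((5 : ℝ) ^ j * q * rd q) ≤ F.card

/-- WIN1. From `Pool.Agent.N906.NT.S_WINN` with `n = 1`, `Δ = {∅, {0}}`, `r = t = 1` (`q = D 0`; `gn D = q' / rad`,
so `q = D 0 / rad`), or as `Pool.Agent.N407.SZ.winq`. -/
def S_WIN1 : Prop := ∀ ε c : ℝ, 0 < ε → ε < 1 → 0 < c → ∃ Z₀ : ℝ, 1 < Z₀ ∧ ∀ Z : ℝ, Z₀ ≤ Z →
  ∃ F : Finset ℕ,
    (∀ q ∈ F, 1 ≤ q ∧ (∀ p ∈ q.primeFactors, √Z < (p : ℝ)) ∧ Real.log q ≤ Z ∧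
      Real.log (∏ p ∈ q.primeFactors, p : ℕ) ≤ ε * Z ∧ ∑ p ∈ q.primeFactors, (1 : ℝ) / p ≤ c) ∧
    Real.exp ((1 - ε) * √(8 * Z / Real.log Z)) ≤
      ∑ q ∈ F, (1 : ℝ) / ((∏ p ∈ q.primeFactors, p : ℕ) : ℝ)

/-- LO3. From `S_GAIN`, WIN1 and LOW3, as `Pool.Agent.N232.SZ.lo`. `T = A (31 X⁶)^lam`, `Z = log T`, `z = √Z`, `P = exp (ε' Z)`,
`j` minimal with `5^j q ≥ T`. -/
def S_LO3 : Prop := ∃ C₀ : ℝ, ∀ lam A ε : ℝ, 0 < lam → lam < 1 / 6 → 1 ≤ A → 0 < ε → ε < 1 →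
  ∃ X₀ : ℝ, 3 < X₀ ∧ ∀ X : ℝ, X₀ ≤ X → ∃ F : Finset (ℤ × ℤ),
    (∀ x ∈ F, Mn x.1 x.2 ∧ |(x.1 : ℝ)| ≤ X ^ 2 ∧ |(x.2 : ℝ)| ≤ X ^ 3 ∧ x.1 % 6 = 1 ∧
      (∀ p : ℕ, p.Prime → C₀ ≤ (p : ℝ) → (p : ℤ) ∣ x.1 → ¬ (p : ℤ) ∣ x.2) ∧
      A * (Nc x.1 x.2 : ℝ) * |((Dd x.1 x.2 : ℤ) : ℝ)| ^ lam ≤ |((Dd x.1 x.2 : ℤ) : ℝ)|) ∧
    Real.exp ((5 - 6 * lam) * Real.log X +
      (1 - ε) * √(48 * lam * Real.log X / Real.log (Real.log X))) ≤ F.card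

/-! ### Heights -/

/-- ARCH. `|Δ(τ)| (Im τ)⁶` is bounded, and `arch τ ≤ log max(|j(τ)|, 1) + C` (see `Pool/Agent/TH876/FH/Ana.lean`);
`jE a b = 6912 a³ / D`; the modular invariant is surjective: `Pool.Agent.Y729.FW.j_surj`. -/
def S_ARCH : Prop := ∃ C : ℝ, ∀ a b : ℤ, Dd a b ≠ 0 → (∃ τ, IsPer a b τ) ∧ ∀ τ, IsPer a b τ →
  -C ≤ arch τ ∧ arch τ ≤ Real.log (max 1 |((jE a b : ℚ) : ℝ)|) + C ∧
  arch τ + Real.log |((Dd a b : ℤ) : ℝ)| ≤ Real.log (Mx a b) + C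

/-- MD. The minimal discriminant of the minimal model among the `y² = x³ - a x - b`: `Ec a b` has discriminant
`16 D`; if `V` over `ℤ` is isomorphic to `Ec a b` over `ℚ` then `V` is isomorphic over `ℤ[1/6]` to the
model `y² = x³ - 27 c₄ x - 54 c₆`, `Δ(V) = 16 D u^12`, and `u ∈ ℚ^×` has bounded numerator and denominator (`6 u`
or so is an integer and, by minimality, `6 / u` or so is an integer). See the proofs for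
`Pool/Agent/Results/MP_6babc4_nt/HeightLimitLaw.lean`. -/
def S_MD : Prop := ∃ C : ℝ, ∀ a b : ℤ, Mn a b →
  Real.log |((Dd a b : ℤ) : ℝ)| - C ≤ Real.log (minDisc (Ec a b) : ℝ) ∧
  Real.log (minDisc (Ec a b) : ℝ) ≤ Real.log |((Dd a b : ℤ) : ℝ)| + C

/-- DENJ. `jE a b = 6912 a³ / D`. For `p ≥ C₀`: `p ∤ gcd(a, D)`. For `5 ≤ p < C₀`, `p ∣ a`, `p ∣ b`: `v(D) ≤ 10`, or `v(a) = 2` and
`v(gcd(a³, D)) ≤ 6`. For `p = 2, 3`: `p ∤ a`. So `|D| / den` is bounded. -/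
def S_DENJ : Prop := ∀ C₀ : ℝ, ∃ C : ℝ, 0 < C ∧ ∀ a b : ℤ, Mn a b → a % 6 = 1 →
  (∀ p : ℕ, p.Prime → C₀ ≤ (p : ℝ) → (p : ℤ) ∣ a → ¬ (p : ℤ) ∣ b) →
  |((Dd a b : ℤ) : ℝ)| ≤ C * (jE a b).den

end Pool.Agent.N906.FH
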