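import Pool.Agent.N906.FH.Stm
import Pool.Agent.N906.SZ.Lim

set_option autoImplicit false

/-!
# Project FH: the limits, from the parts
-/

namespace Pool.Agent.N906.FH

open Finset Filter Topology Pool.Agent.N906.SZ

/-- squeezing with two constants -/
theorem lim_gen {β e : ℝ} (hβ : 0 < β) (N : ℝ → ℝ)
    (hU : ∀ ε : ℝ, 0 < ε → ∃ X₀ : ℝ, 3 < X₀ ∧ ∀ X : ℝ, X₀ ≤ X →
      N X ≤ Real.exp (e * Real.log X + (1 + ε) * √(β * Real.log X / Real.log (Real.log X))))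
    (hL : ∀ ε : ℝ, 0 < ε → ε < 1 → ∃ X₀ : ℝ, 3 < X₀ ∧ ∀ X : ℝ, X₀ ≤ X →
      Real.exp (e * Real.log X + (1 - ε) * √(β * Real.log X / Real.log (Real.log X))) ≤ N X) :
    Tendsto (fun X : ℝ => (Real.log (N X) - e * Real.log X) /
      √(Real.log X / Real.log (Real.log X))) atTop (𝓝 √β) := by
  have hs : 0 < √β := Real.sqrt_pos.2 hβ
  rw [Metric.tendsto_atTop']
  intro ε hε
  obtain ⟨ε', hε'⟩ : ∃ ε' : ℝ, ε' = min (1 / 2) (ε / (2 * √β)) := ⟨_, rfl⟩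
  have h0 : 0 < ε' := by rw [hε']; exact lt_min (by norm_num) (by positivity)
  have h1 : ε' < 1 := by rw [hε']; exact lt_of_le_of_lt (min_le_left _ _) (by norm_num)
  have h2 : ε' * √β ≤ ε / 2 := by
    have : ε' ≤ ε / (2 * √β) := by rw [hε']; exact min_le_right _ _
    have h3 := mul_le_mul_of_nonneg_right this hs.le
    rw [div_mul_eq_mul_div, mul_comm ε, ← div_div, mul_div_assoc] at h3
    refine h3.trans (le_of_eq ?_)
    field_simp
  obtain ⟨X₁, hX₁, hu⟩ := hU ε' h0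
  obtain ⟨X₂, hX₂, hl⟩ := hL ε' h0 h1
  refine ⟨max X₁ X₂, fun X hX => ?_⟩
  have hX1 : X₁ ≤ X := (le_max_left _ _).trans hX.le
  have hX2 : X₂ ≤ X := (le_max_right _ _).trans hX.le
  have hu' := hu X hX1
  have hl' := hl X hX2
  have hX3 : 3 < X := by linarith
  have he : Real.exp 1 < X := by
    have := Real.exp_one_lt_d9
    linarith
  have hlog : 1 < Real.log X := by
    rw [Real.lt_log_iff_exp_lt (by linarith)]; exact he
  have hll : 0 < Real.log (Real.log X) := Real.log_pos hlog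
  obtain ⟨G, hG⟩ : ∃ G : ℝ, G = √(Real.log X / Real.log (Real.log X)) := ⟨_, rfl⟩
  have hG0 : 0 < G := by rw [hG]; exact Real.sqrt_pos.2 (div_pos (by linarith) hll)
  have hGe : √(β * Real.log X / Real.log (Real.log X)) = √β * G := by
    rw [hG, mul_div_assoc, Real.sqrt_mul hβ.le]
  rw [hGe] at hu' hl'
  rw [← hG]
  have hN : 0 < N X := (Real.exp_pos _).trans_le hl'
  have g4 : Real.log (N X) ≤ e * Real.log X + (1 + ε') * (√β * G) := by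
    rw [Real.log_le_iff_le_exp hN]; exact hu'
  have g5 : e * Real.log X + (1 - ε') * (√β * G) ≤ Real.log (N X) := by
    rw [Real.le_log_iff_exp_le hN]; exact hl'
  have h3 : ε' * √β * G ≤ ε / 2 * G := mul_le_mul_of_nonneg_right h2 hG0.le
  have h4 : 0 < ε / 2 * G := by positivity
  rw [Real.dist_eq, abs_lt]
  constructor
  · rw [lt_sub_iff_add_lt, lt_div_iff₀ hG0]
    nlinarith
  · rw [sub_lt_iff_lt_add, div_lt_iff₀ hG0]
    nlinarith

/-- a set of curves in the box, given by a height function -/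
def HV (P : ℤ → ℤ → Prop) (X : ℝ) : Set (ℤ × ℤ) :=
  {q | Mn q.1 q.2 ∧ |(q.1 : ℝ)| ≤ X ^ 2 ∧ |(q.2 : ℝ)| ≤ X ^ 3 ∧ P q.1 q.2}

theorem HV_fin (P : ℤ → ℤ → Prop) (X : ℝ) : (HV P X).Finite :=
  (box_fin X).subset fun _ hq => ⟨hq.2.1, hq.2.2.1⟩

/-- the general limit -/
theorem lim_HV {Pn : ℕ → ℤ → ℤ → Prop} {μ : ℝ} (hμ : 0 < μ) (hU : S_UPg Pn μ)
    {lam : ℝ} (hl0 : 0 < lam) (hl1 : lam < 1 / 6) (P : ℤ → ℤ → Prop)
    (hP : ∃ K : ℝ, 1 ≤ K ∧ ∀ a b, Mn a b → P a b → ∃ n : ℕ, 1 ≤ n ∧ Pn n a b ∧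
      |((Dd a b : ℤ) : ℝ)| ≤ K * n * Mx a b ^ (1 - lam))
    (hL : ∀ ε : ℝ, 0 < ε → ε < 1 → ∃ X₀ : ℝ, 3 < X₀ ∧ ∀ X : ℝ, X₀ ≤ X → ∃ F : Finset (ℤ × ℤ),
      (∀ x ∈ F, Mn x.1 x.2 ∧ |(x.1 : ℝ)| ≤ X ^ 2 ∧ |(x.2 : ℝ)| ≤ X ^ 3 ∧ P x.1 x.2) ∧
      Real.exp ((5 - 6 * lam) * Real.log X +
        (1 - ε) * √(48 * μ * lam * Real.log X / Real.log (Real.log X))) ≤ F.card) :
    Tendsto (fun X : ℝ => (Real.log ((HV P X).ncard : ℝ) - (5 - 6 * lam) * Real.log X) /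
      √(Real.log X / Real.log (Real.log X))) atTop (𝓝 √(48 * μ * lam)) := by
  obtain ⟨K, hK, hP'⟩ := hP
  refine lim_gen (by positivity) (fun X => ((HV P X).ncard : ℝ)) ?_ ?_
  · intro ε hε
    obtain ⟨X₀, hX₀, h⟩ := hU lam K ε hl0 hl1 hK hε
    refine ⟨X₀, hX₀, fun X hX => ?_⟩
    have h3 := h X (HV_fin P X).toFinset hX ?_
    · rwa [← Set.ncard_eq_toFinset_card _ (HV_fin P X)] at h3
    · intro x hx
      rw [Set.Finite.mem_toFinset] at hx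
      obtain ⟨g1, g2, g3, g4⟩ := hx
      exact ⟨g1, g2, g3, hP' x.1 x.2 g1 g4⟩
  · intro ε hε hε1
    obtain ⟨X₀, hX₀, h⟩ := hL ε hε hε1
    refine ⟨X₀, hX₀, fun X hX => ?_⟩
    obtain ⟨F, hF, h3⟩ := h X hX
    refine h3.trans ?_
    have h5 : (F : Set (ℤ × ℤ)) ⊆ HV P X := fun x hx => hF x hx
    have h6 := Set.ncard_le_ncard h5 (HV_fin P X)
    rw [Set.ncard_coe_finset] at h6
    exact_mod_cast h6

theorem Mx_pos {a b : ℤ} (h : Dd a b ≠ 0) : 0 < Mx a b := by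
  unfold Mx
  exact lt_max_of_lt_right (abs_pos.2 (by exact_mod_cast h))

/-- from logarithms to powers -/
theorem from_log {σ lam N S C : ℝ} (hσ : 1 < σ) (hl : lam = 1 - 1 / σ) (hN : 0 < N) (hS : 0 < S)
    (h : σ * Real.log N ≤ Real.log S + C) : N ≤ Real.exp (|C| / σ) * S ^ (1 - lam) := by
  have hσ0 : 0 < σ := by linarith
  have e1 : 1 - lam = 1 / σ := by rw [hl]; ring
  rw [e1]
  have h1 : Real.log N ≤ (Real.log S + |C|) / σ := by
    rw [le_div_iff₀ hσ0]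
    have := le_abs_self C
    linarith
  rw [Real.log_le_iff_le_exp hN] at h1
  refine h1.trans (le_of_eq ?_)
  rw [Real.rpow_def_of_pos hS, ← Real.exp_add]
  congr 1
  ring

/-- the upper condition for the unstable height -/
theorem cond_unst (hG : S_GAIN) {σ lam : ℝ} (hσ : 1 < σ) (hl : lam = 1 - 1 / σ) (C : ℝ) :
    ∃ K : ℝ, 1 ≤ K ∧ ∀ a b, Mn a b →
      σ * Real.log (Nc a b : ℝ) ≤ Real.log (Mx a b) + C → ∃ n : ℕ, 1 ≤ n ∧ Cn n a b ∧
      |((Dd a b : ℤ) : ℝ)| ≤ K * n * Mx a b ^ (1 - lam) := by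
  refine ⟨Real.exp (|C| / σ), Real.one_le_exp (by positivity), fun a b hM h => ?_⟩
  obtain ⟨n, hn, hCn, hD⟩ := hG a b hM.1
  have hN : (0 : ℝ) < Nc a b := by exact_mod_cast Nc_pos a b
  have h1 := from_log hσ hl hN (Mx_pos hM.1) h
  refine ⟨n, hn, hCn, ?_⟩
  have h2 : |((Dd a b : ℤ) : ℝ)| = n * Nc a b := by
    have h3 : |((Dd a b : ℤ) : ℝ)| = ((Dd a b).natAbs : ℝ) := by
      rw [Nat.cast_natAbs, Int.cast_abs]
    rw [h3, hD]
    push_cast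
    ring
  rw [h2]
  calc (n : ℝ) * Nc a b ≤ n * (Real.exp (|C| / σ) * Mx a b ^ (1 - lam)) :=
        mul_le_mul_of_nonneg_left h1 (Nat.cast_nonneg _)
    _ = Real.exp (|C| / σ) * n * Mx a b ^ (1 - lam) := by ring

/-- the lower condition -/
theorem cond_low {σ lam : ℝ} (hσ : 1 < σ) (hl : lam = 1 - 1 / σ) (B C : ℝ) (hB : 1 ≤ B) :
    ∃ A : ℝ, 1 ≤ A ∧ ∀ N D f : ℝ, 1 ≤ N → 0 < D → N ≤ f → f ≤ B * N → A * N * D ^ lam ≤ D →
      σ * Real.log f + C ≤ Real.log D := by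
  have hσ0 : 0 < σ := by linarith
  refine ⟨B * Real.exp (|C| / σ), ?_, fun N D f hN hD hNf hf h => ?_⟩
  · have h1 : 1 ≤ Real.exp (|C| / σ) := Real.one_le_exp (by positivity)
    nlinarith
  have hf0 : 0 < f := by linarith
  have hB0 : 0 < B := by linarith
  have h1 : f * Real.exp (|C| / σ) * D ^ lam ≤ D := by
    refine le_trans ?_ h
    have h2 : f * Real.exp (|C| / σ) ≤ B * N * Real.exp (|C| / σ) :=
      mul_le_mul_of_nonneg_right hf (Real.exp_pos _).le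
    have h3 := mul_le_mul_of_nonneg_right h2 (Real.rpow_pos_of_pos hD lam).le
    refine h3.trans (le_of_eq ?_)
    ring
  have h2 := Real.log_le_log (by positivity) h1
  rw [Real.log_mul (by positivity) (Real.rpow_pos_of_pos hD lam).ne',
    Real.log_mul hf0.ne' (Real.exp_pos _).ne', Real.log_exp, Real.log_rpow hD] at h2
  have h3 : Real.log f + |C| / σ ≤ (1 - lam) * Real.log D := by linarith
  have h4 : (1 - lam) = 1 / σ := by rw [hl]; ring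
  rw [h4] at h3
  have h5 := mul_le_mul_of_nonneg_left h3 hσ0.le
  have h6 : σ * (1 / σ * Real.log D) = Real.log D := by field_simp
  have h7 : σ * (Real.log f + |C| / σ) = σ * Real.log f + |C| := by field_simp
  rw [h6, h7] at h5
  have := le_abs_self C
  linarith

/-- the unstable Faltings height -/
noncomputable def hun (a b : ℤ) (τ : UpperHalfPlane) : ℝ :=
  (Real.log (minDisc (Ec a b) : ℝ) + arch τ) / 12

/-- the stable Faltings height -/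
noncomputable def hst (a b : ℤ) (τ : UpperHalfPlane) : ℝ :=
  (Real.log ((jE a b).den : ℝ) + arch τ) / 12

/-- the numbers attached to a slope -/
theorem slope {κ : ℝ} (h1 : 1 / 12 < κ) (h2 : κ < 1 / 10) : ∃ σ lam : ℝ, σ = 12 * κ ∧ 1 < σ ∧
    lam = 1 - 1 / σ ∧ 0 < lam ∧ lam < 1 / 6 ∧ 5 - 6 * lam = 1 / (2 * κ) - 1 ∧
    48 * lam = 48 - 4 / κ := by
  refine ⟨12 * κ, 1 - 1 / (12 * κ), rfl, by linarith, rfl, ?_, ?_, ?_, ?_⟩
  · rw [sub_pos, div_lt_one (by linarith)]; linarith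
  · have : 5 / 6 < 1 / (12 * κ) := by
      rw [lt_div_iff₀ (by linarith)]; linarith
    linarith
  · have hk : κ ≠ 0 := by intro h; rw [h] at h1; norm_num at h1
    field_simp
    ring
  · have hk : κ ≠ 0 := by intro h; rw [h] at h1; norm_num at h1
    field_simp
    ring

/-- the limit for the unstable height -/
theorem lim_un (hG : S_GAIN) (hU : S_UPg Cn 2) (hL : S_LO) (hA : S_ARCH) (hM : S_MD)
    {f : ℤ → ℤ → ℝ} {B : ℝ} (hB : 1 ≤ B)
    (hf : ∀ a b, Mn a b → (Nc a b : ℝ) ≤ f a b ∧ f a b ≤ B * Nc a b)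
    {κ : ℝ} (h1 : 1 / 12 < κ) (h2 : κ < 1 / 10) (c : ℝ) :
    Tendsto (fun X : ℝ => (Real.log ((HV (fun a b => ∃ τ, IsPer a b τ ∧
      κ * Real.log (f a b) + c ≤ hun a b τ) X).ncard : ℝ) - (1 / (2 * κ) - 1) * Real.log X) /
      √(Real.log X / Real.log (Real.log X))) atTop (𝓝 √(96 - 8 / κ)) := by
  obtain ⟨σ, lam, hσ, hσ1, hlam, hl0, hl1, e1, e2⟩ := slope h1 h2
  obtain ⟨C₁, hC₁⟩ := hA
  obtain ⟨C₂, hC₂⟩ := hM
  have e3 : 96 - 8 / κ = 48 * 2 * lam := by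
    have : (96 : ℝ) - 8 / κ = 2 * (48 - 4 / κ) := by ring
    rw [this, ← e2]; ring
  rw [← e1, e3]
  refine lim_HV two_pos hU hl0 hl1 _ ?_ ?_
  · obtain ⟨K, hK, h⟩ := cond_unst hG hσ1 hlam (C₁ + C₂ - 12 * c)
    refine ⟨K, hK, fun a b hab hP => h a b hab ?_⟩
    obtain ⟨τ, hτ, hh⟩ := hP
    have g1 := ((hC₁ a b hab.1).2 τ hτ).2.2
    have g2 := (hC₂ a b hab).2
    have hN : (1 : ℝ) ≤ Nc a b := by exact_mod_cast Nc_pos a b
    have g3 : Real.log (Nc a b : ℝ) ≤ Real.log (f a b) := Real.log_le_log (by linarith) (hf a b hab).1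
    unfold hun at hh
    have hκ : 0 < κ := by linarith
    have g4 : κ * Real.log (Nc a b : ℝ) ≤ κ * Real.log (f a b) := mul_le_mul_of_nonneg_left g3 hκ.le
    rw [hσ]
    linarith
  · intro ε hε hε1
    obtain ⟨A, hA1, hA⟩ := cond_low hσ1 hlam B (C₁ + C₂ + 12 * c) hB
    obtain ⟨X₀, hX₀, h⟩ := hL lam A ε hl0 hl1 hA1 hε hε1
    refine ⟨X₀, hX₀, fun X hX => ?_⟩
    obtain ⟨F, hF, h3⟩ := h X hX
    refine ⟨F, fun x hx => ?_, ?_⟩
    · obtain ⟨g1, g2, g3, g4⟩ := hF x hx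
      refine ⟨g1, g2, g3, ?_⟩
      obtain ⟨⟨τ, hτ⟩, hτ2⟩ := hC₁ x.1 x.2 g1.1
      refine ⟨τ, hτ, ?_⟩
      have k1 := (hτ2 τ hτ).1
      have k2 := (hC₂ x.1 x.2 g1).1
      have hD : (0 : ℝ) < |((Dd x.1 x.2 : ℤ) : ℝ)| := abs_pos.2 (by exact_mod_cast g1.1)
      have k3 := hA (Nc x.1 x.2) _ (f x.1 x.2) (by exact_mod_cast Nc_pos x.1 x.2) hD
        (hf _ _ g1).1 (hf _ _ g1).2 g4
      unfold hun
      rw [hσ] at k3
      linarith
    · convert h3 using 5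
      ring

/-- the limit for the stable height -/
theorem lim_st (hG : S_GAIN3) (hU : S_UPg Cs 1) (hL : S_LO3) (hA : S_ARCH) (hJ : S_DENJ)
    {f : ℤ → ℤ → ℝ} {B : ℝ} (hB : 1 ≤ B)
    (hf : ∀ a b, Mn a b → (Nc a b : ℝ) ≤ f a b ∧ f a b ≤ B * Nc a b)
    {κ : ℝ} (h1 : 1 / 12 < κ) (h2 : κ < 1 / 10) (c : ℝ) :
    Tendsto (fun X : ℝ => (Real.log ((HV (fun a b => ∃ τ, IsPer a b τ ∧
      κ * Real.log (f a b) + c ≤ hst a b τ) X).ncard : ℝ) - (1 / (2 * κ) - 1) * Real.log X) /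
      √(Real.log X / Real.log (Real.log X))) atTop (𝓝 √(48 - 4 / κ)) := by
  obtain ⟨σ, lam, hσ, hσ1, hlam, hl0, hl1, e1, e2⟩ := slope h1 h2
  obtain ⟨C₁, hC₁⟩ := hA
  obtain ⟨C₀, hL⟩ := hL
  obtain ⟨C₃, hC₃0, hC₃⟩ := hJ C₀
  have e3 : 48 - 4 / κ = 48 * 1 * lam := by rw [← e2]; ring
  rw [← e1, e3]
  refine lim_HV one_pos hU hl0 hl1 _ ?_ ?_
  · obtain ⟨K', hK', h⟩ := hG lam (Real.exp (|C₁ - 12 * c| / σ)) hl0 hl1
      (Real.one_le_exp (by have : 0 < σ := by linarith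
                           positivity))
    refine ⟨K', hK', fun a b hab hP => h a b hab ?_⟩
    obtain ⟨τ, hτ, hh⟩ := hP
    have g1 := ((hC₁ a b hab.1).2 τ hτ).2.1
    have hN : (1 : ℝ) ≤ Nc a b := by exact_mod_cast Nc_pos a b
    have g3 : Real.log (Nc a b : ℝ) ≤ Real.log (f a b) := Real.log_le_log (by linarith) (hf a b hab).1
    have hden : (0 : ℝ) < ((jE a b).den : ℝ) := by exact_mod_cast (jE a b).den_pos
    have hmax : (0 : ℝ) < max 1 |((jE a b : ℚ) : ℝ)| := lt_max_of_lt_left one_pos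
    refine from_log hσ1 hlam (by linarith) (mul_pos hden hmax) ?_
    rw [Real.log_mul hden.ne' hmax.ne']
    unfold hst at hh
    have hκ : 0 < κ := by linarith
    have g4 : κ * Real.log (Nc a b : ℝ) ≤ κ * Real.log (f a b) := mul_le_mul_of_nonneg_left g3 hκ.le
    rw [hσ]
    linarith
  · intro ε hε hε1
    obtain ⟨A, hA1, hA⟩ := cond_low hσ1 hlam B (C₁ + |Real.log C₃| + 12 * c) hB
    obtain ⟨X₀, hX₀, h⟩ := hL lam A ε hl0 hl1 hA1 hε hε1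
    refine ⟨X₀, hX₀, fun X hX => ?_⟩
    obtain ⟨F, hF, h3⟩ := h X hX
    refine ⟨F, fun x hx => ?_, ?_⟩
    · obtain ⟨g1, g2, g3, g5, g6, g4⟩ := hF x hx
      refine ⟨g1, g2, g3, ?_⟩
      obtain ⟨⟨τ, hτ⟩, hτ2⟩ := hC₁ x.1 x.2 g1.1
      refine ⟨τ, hτ, ?_⟩
      have k1 := (hτ2 τ hτ).1
      have k2 := hC₃ x.1 x.2 g1 g5 g6
      have hD : (0 : ℝ) < |((Dd x.1 x.2 : ℤ) : ℝ)| := abs_pos.2 (by exact_mod_cast g1.1)
      have hden : (0 : ℝ) < ((jE x.1 x.2).den : ℝ) := by exact_mod_cast (jE x.1 x.2).den_pos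
      have k3 := hA (Nc x.1 x.2) _ (f x.1 x.2) (by exact_mod_cast Nc_pos x.1 x.2) hD
        (hf _ _ g1).1 (hf _ _ g1).2 g4
      have k4 := Real.log_le_log hD k2
      rw [Real.log_mul hC₃0.ne' hden.ne'] at k4
      have k5 := le_abs_self (Real.log C₃)
      unfold hst
      rw [hσ] at k3
      linarith
    · convert h3 using 5
      ring

end Pool.Agent.N906.FH
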