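import Pool.Agent.N906.FH.AllUn
import Pool.Agent.N906.NT.All
import Pool.Agent.N80.FH_DENS3
import Pool.Agent.N262.FH_GEN1
import Pool.Agent.N216.FH_GAIN3
import Pool.Agent.N492.FH_LOW3
import Pool.Agent.N286.FH_LO3
import Pool.Agent.N954.FH_WIN1
import Pool.Agent.N40.FH_DENJ

set_option autoImplicit false

/-!
# Project FH: the stable height, all parts together
-/

namespace Pool.Agent.N906.FH

open Finset Filter Topology Pool.Agent.N906.SZ

theorem cnt3_all : S_CNTg Cs (fun _ => 1) :=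
  Pool.Agent.N27.FH.cnt3 Pool.Agent.N80.FH.dens3 Pool.Agent.N123.FH.reg2

theorem up_st : S_UPg Cs 1 :=
  Pool.Agent.N692.FH.upg upb2_all Cs (fun _ => 1) 1 one_pos (fun _ => zero_le_one)
    (fun n m a b h1 h2 h3 => mono_Cs n m a b h1 h2 h3) (fun n a b _ h2 => Cs_imp n a b h2) cnt3_all
    (Pool.Agent.N163.FH.upag Cs (fun _ => 1) 1 one_pos (fun _ => zero_le_one)
      (fun δ hδ => ⟨1, fun n hn => by
        rw [one_mul]
        exact Real.one_le_rpow (by exact_mod_cast hn) hδ.le⟩) cnt3_all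
      (Pool.Agent.N262.FH.gen1 Pool.Agent.N72.SZ.gupq))

theorem lo3_all : S_LO3 :=
  Pool.Agent.N286.FH.lo3 Pool.Agent.N157.SZ.gain
    (Pool.Agent.N954.FH.win1 Pool.Agent.N906.NT.winn_all) Pool.Agent.N492.FH.low3

/-- the limit for the stable height -/
theorem lim_st_all {f : ℤ → ℤ → ℝ} {B : ℝ} (hB : 1 ≤ B)
    (hf : ∀ a b, Mn a b → (Nc a b : ℝ) ≤ f a b ∧ f a b ≤ B * Nc a b)
    {κ : ℝ} (h1 : 1 / 12 < κ) (h2 : κ < 1 / 10) (c : ℝ) :
    Tendsto (fun X : ℝ => (Real.log ((HV (fun a b => ∃ τ, IsPer a b τ ∧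
      κ * Real.log (f a b) + c ≤ hst a b τ) X).ncard : ℝ) - (1 / (2 * κ) - 1) * Real.log X) /
      √(Real.log X / Real.log (Real.log X))) atTop (𝓝 √(48 - 4 / κ)) :=
  lim_st Pool.Agent.N216.FH.gain3 up_st lo3_all Pool.Agent.N195.FH.arch_bds
    Pool.Agent.N40.FH.denj hB hf h1 h2 c

end Pool.Agent.N906.FH
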