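import Pool.Agent.N906.FH.Cond
import Pool.Agent.N906.SZ.All
import Pool.Agent.N27.FH_CNT
import Pool.Agent.N123.FH_REG2
import Pool.Agent.N97.FH_PERA2
import Pool.Agent.N163.FH_UPAG
import Pool.Agent.N2.FH_UPB2
import Pool.Agent.N692.FH_UPG
import Pool.Agent.N195.FH_ARCH
import Pool.Agent.N40.FH_MD

set_option autoImplicit false

/-!
# Project FH: the unstable height, all parts together
-/

namespace Pool.Agent.N906.FH

open Finset Filter Topology Pool.Agent.N906.SZ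

theorem upb2_all : S_UPB2 :=
  Pool.Agent.N2.FH.upb2 Pool.Agent.N97.FH.pera2 (Pool.Agent.N92.SZ.lp Pool.Agent.N56.SZ.conic)
    Pool.Agent.N72.SZ.genu

theorem cnt2_all : S_CNTg Cn (fun n => (cc n : ℝ)) :=
  Pool.Agent.N27.FH.cnt2 Pool.Agent.N966.SZ.dens Pool.Agent.N123.FH.reg2

theorem up_un : S_UPg Cn 2 :=
  Pool.Agent.N692.FH.upg upb2_all Cn (fun n => (cc n : ℝ)) 2 two_pos (fun n => Nat.cast_nonneg _)
    (fun n m a b h1 h2 h3 => mono_Cn n m a b h1 h2 h3) (fun _ _ _ _ h => h) cnt2_all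
    (Pool.Agent.N163.FH.upag Cn (fun n => (cc n : ℝ)) 2 two_pos (fun n => Nat.cast_nonneg _)
      (fun δ hδ => cc_le δ hδ) cnt2_all Pool.Agent.N72.SZ.genu)

/-- the limit for the unstable height -/
theorem lim_un_all {f : ℤ → ℤ → ℝ} {B : ℝ} (hB : 1 ≤ B)
    (hf : ∀ a b, Mn a b → (Nc a b : ℝ) ≤ f a b ∧ f a b ≤ B * Nc a b)
    {κ : ℝ} (h1 : 1 / 12 < κ) (h2 : κ < 1 / 10) (c : ℝ) :
    Tendsto (fun X : ℝ => (Real.log ((HV (fun a b => ∃ τ, IsPer a b τ ∧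
      κ * Real.log (f a b) + c ≤ hun a b τ) X).ncard : ℝ) - (1 / (2 * κ) - 1) * Real.log X) /
      √(Real.log X / Real.log (Real.log X))) atTop (𝓝 √(96 - 8 / κ)) :=
  lim_un Pool.Agent.N157.SZ.gain up_un Pool.Agent.N906.SZ.lo_all Pool.Agent.N195.FH.arch_bds
    Pool.Agent.N40.FH.md hB hf h1 h2 c

end Pool.Agent.N906.FH
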