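import Pool.Agent.N906.FH.Fin
import Pool.Agent.N92.SZ_UPB

set_option autoImplicit false

/-!
# Project FH: elementary properties of the local conditions
-/

namespace Pool.Agent.N906.FH

open Finset Filter Topology Pool.Agent.N906.SZ

theorem mono_Cn (n m : ℕ) (a b : ℤ) (hm : 1 ≤ m) (hnm : n ∣ m) (h : Cn m a b) : Cn n a b := by
  intro p hp
  have hm0 : m ≠ 0 := by omega
  have hn0 : n ≠ 0 := by
    rintro rfl
    exact hm0 (Nat.eq_zero_of_zero_dvd hnm)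
  have hpm : p ∈ m.primeFactors := Nat.primeFactors_mono hnm hm0 hp
  refine (pow_dvd_pow _ ?_).trans (h p hpm)
  have := (Nat.factorization_le_iff_dvd hn0 hm0).2 hnm p
  omega

theorem mono_Cs (n m : ℕ) (a b : ℤ) (hm : 1 ≤ m) (hnm : n ∣ m) (h : Cs m a b) : Cs n a b := by
  intro p hp
  have hm0 : m ≠ 0 := by omega
  have hn0 : n ≠ 0 := by
    rintro rfl
    exact hm0 (Nat.eq_zero_of_zero_dvd hnm)
  have hpm : p ∈ m.primeFactors := Nat.primeFactors_mono hnm hm0 hp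
  have hle := (Nat.factorization_le_iff_dvd hn0 hm0).2 hnm p
  obtain ⟨h1, h2⟩ := h p hpm
  refine ⟨fun hp5 => (pow_dvd_pow _ hle).trans (h1 hp5), fun hp5 => ?_⟩
  rcases h2 hp5 with ⟨g1, g2⟩ | ⟨g1, g2⟩
  · exact Or.inl ⟨g1, (pow_dvd_pow _ (by omega)).trans g2⟩
  · exact Or.inr ⟨g1, (pow_dvd_pow _ (by omega)).trans g2⟩

theorem Cs_imp (n : ℕ) (a b : ℤ) (h : Cs n a b) : Cn n a b := by
  intro p hp
  obtain ⟨h1, h2⟩ := h p hp
  unfold fe
  split_ifs with h5 ha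
  · simpa using h1 h5
  · rcases h2 (by omega) with ⟨g1, g2⟩ | ⟨g1, g2⟩
    · exact absurd ha g1
    · exact (pow_dvd_pow _ (by omega)).trans g2
  · rcases h2 (by omega) with ⟨g1, g2⟩ | ⟨g1, g2⟩
    · exact g2
    · exact absurd g1 ha

theorem cc_le (δ : ℝ) (hδ : 0 < δ) : ∃ C : ℝ, ∀ n : ℕ, 1 ≤ n → (cc n : ℝ) ≤ C * (n : ℝ) ^ δ := by
  obtain ⟨C, hC, h⟩ := Pool.Agent.N92.SZ.omega_bound δ hδ
  refine ⟨C, fun n hn => le_trans ?_ (h n hn)⟩
  unfold cc
  push_cast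
  have h1 : ∏ p ∈ n.primeFactors.filter (fun p => 5 ≤ p),
      (if 6 ≤ n.factorization p ∧ n.factorization p ≤ 8 then (3 : ℝ) else 2) ≤
      ∏ p ∈ n.primeFactors.filter (fun p => 5 ≤ p), (6 : ℝ) := by
    refine prod_le_prod (fun p _ => by split_ifs <;> norm_num) fun p _ => ?_
    split_ifs <;> norm_num
  refine h1.trans ?_
  rw [prod_const]
  exact pow_le_pow_right₀ (by norm_num) (card_le_card (filter_subset _ _))

end Pool.Agent.N906.FH
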